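import Pool.Agent.H264R2.Bounds

set_option autoImplicit false

namespace Pool.Agent.Results.MP_0cbd55_co.UpperBound

open Finset Pool.Agent.H264R2.Pigeon

/-- Euclidean distance of two lattice points. -/
noncomputable def eucl (a b : ℤ × ℤ) : ℝ :=
  Real.sqrt (((a.1 : ℝ) - b.1) ^ 2 + ((a.2 : ℝ) - b.2) ^ 2)

/-- The `m × m` integer lattice `{1,…,m}²`. -/
noncomputable def lattice (m : ℕ) : Finset (ℤ × ℤ) := Finset.Icc (1 : ℤ) m ×ˢ Finset.Icc (1 : ℤ) m

/-- `S` spans no distance more than once. -/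
def NoRepeat (S : Finset (ℤ × ℤ)) : Prop :=
  ∀ a ∈ S, ∀ b ∈ S, ∀ c ∈ S, ∀ e ∈ S, a ≠ b → c ≠ e → eucl a b = eucl c e →
    (a = c ∧ b = e) ∨ (a = e ∧ b = c)

open Classical in
/-- `s n`, for a perfect square `n = m²`: the largest size of a subset of the `m × m` lattice that
spans no distance more than once (`m = Nat.sqrt n`). -/
noncomputable def s (n : ℕ) : ℕ :=
  ((lattice (Nat.sqrt n)).powerset.filter NoRepeat).sup Finset.card

lemma eucl_eq_of_nd {x y : (ℤ × ℤ) × (ℤ × ℤ)} (h : nd x = nd y) : eucl x.1 x.2 = eucl y.1 y.2 := by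
  have h1 := nd_cast x
  have h2 := nd_cast y
  rw [h] at h1
  have h3 : N2 (x.1 - x.2) = N2 (y.1 - y.2) := h1.symm.trans h2
  unfold N2 at h3
  simp only [Prod.fst_sub, Prod.snd_sub] at h3
  unfold eucl
  congr 1
  exact_mod_cast h3

lemma card_le {S : Finset (ℤ × ℤ)} (hS : NoRepeat S) (m : ℕ) (hm : 0 < m) :
    ((S ×ˢ S).filter (fun x => nd x = m)).card ≤ 2 := by
  classical
  rcases Finset.eq_empty_or_nonempty ((S ×ˢ S).filter (fun x => nd x = m)) with h | ⟨y, hy⟩
  · rw [h]; simp
  · have hsub : (S ×ˢ S).filter (fun x => nd x = m) ⊆ {y, (y.2, y.1)} := by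
      intro x hx
      rw [mem_filter, mem_product] at hx hy
      have hne : ∀ z : (ℤ × ℤ) × (ℤ × ℤ), nd z = m → z.1 ≠ z.2 := by
        intro z hz h
        have h1 := nd_cast z
        rw [h, sub_self, hz] at h1
        have : N2 (0 : ℤ × ℤ) = 0 := by simp [N2]
        rw [this] at h1
        omega
      have := hS x.1 hx.1.1 x.2 hx.1.2 y.1 hy.1.1 y.2 hy.1.2 (hne x hx.2) (hne y hy.2)
        (eucl_eq_of_nd (hx.2.trans hy.2.symm))
      rw [mem_insert, mem_singleton]
      rcases this with ⟨h1, h2⟩ | ⟨h1, h2⟩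
      · left; exact Prod.ext h1 h2
      · right; exact Prod.ext h1 h2
    exact (card_le_card hsub).trans Finset.card_le_two

/-- For all large perfect squares `n = m²`, the largest subset of the `m × m` lattice that spans no
distance more than once has at most `n ^ (1/2 - c / log log n)` points, with `c = 1/800`. -/
theorem result : ∃ m₀ : ℕ, ∀ m n : ℕ, m₀ ≤ m → n = m ^ 2 →
    (s n : ℝ) ≤ (n : ℝ) ^ (1 / 2 - 1 / 800 / Real.log (Real.log n)) := by
  classical
  obtain ⟨n₀, h⟩ := Pool.Agent.H264R2.Bounds.distinct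
  refine ⟨max n₀ 16, fun m n hm hn => ?_⟩
  have hm0 : n₀ ≤ m := (le_max_left _ _).trans hm
  have hm16 : 16 ≤ m := (le_max_right _ _).trans hm
  have hsq : Nat.sqrt n = m := by rw [hn, pow_two]; exact Nat.sqrt_eq m
  have hne : ((lattice (Nat.sqrt n)).powerset.filter NoRepeat).Nonempty := by
    refine ⟨∅, ?_⟩
    rw [mem_filter, mem_powerset]
    exact ⟨Finset.empty_subset _, fun a ha => absurd ha (Finset.notMem_empty a)⟩
  obtain ⟨S, hS, hcard⟩ := Finset.exists_mem_eq_sup _ hne Finset.card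
  have hk : s n = S.card := by
    unfold s
    convert hcard
  rw [hk]
  rw [mem_filter, mem_powerset] at hS
  have key : (S.card : ℝ) ≤ (m : ℝ) ^ (1 - 1 / 400 / Real.log (Real.log m)) := by
    apply h m hm0 S
    · intro a ha
      have := hS.1 ha
      rw [lattice, hsq, mem_product, mem_Icc, mem_Icc] at this
      exact this
    · intro k hk
      exact card_le hS.2 k hk
  refine key.trans ?_
  have hmR : (16 : ℝ) ≤ (m : ℝ) := by exact_mod_cast hm16
  have hmpos : (0 : ℝ) < m := by linarith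
  have hnR : (n : ℝ) = (m : ℝ) ^ (2 : ℝ) := by
    rw [hn]; push_cast; norm_num
  have hlogm : (1 : ℝ) < Real.log m := by
    rw [Real.lt_log_iff_exp_lt hmpos]
    have := Real.exp_one_lt_d9
    linarith
  have hlogn : Real.log n = 2 * Real.log m := by
    rw [hnR, Real.log_rpow hmpos]
  have hll : Real.log (Real.log m) ≤ Real.log (Real.log n) := by
    apply Real.log_le_log (by linarith)
    rw [hlogn]; linarith
  have hllpos : 0 < Real.log (Real.log m) := Real.log_pos hlogm
  rw [hnR, ← Real.rpow_mul hmpos.le]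
  apply Real.rpow_le_rpow_of_exponent_le (by linarith)
  rw [← hnR]
  have h1 : 1 / Real.log (Real.log n) ≤ 1 / Real.log (Real.log m) :=
    one_div_le_one_div_of_le hllpos hll
  have h2 : 1 / 400 / Real.log (Real.log (m : ℝ)) = 1 / 400 * (1 / Real.log (Real.log (m : ℝ))) := by ring
  have h3 : 2 * (1 / 2 - 1 / 800 / Real.log (Real.log (n : ℝ)))
      = 1 - 1 / 400 * (1 / Real.log (Real.log (n : ℝ))) := by ring
  rw [h2, h3]
  linarith

end Pool.Agent.Results.MP_0cbd55_co.UpperBound
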